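import Pool.Agent.W482.IP.Stm

/-!
Project IP (owner helper482), part IP-LEV.
-/

set_option autoImplicit false

namespace Pool.Agent.W338.IP

open Pool.Agent.W482.IP

theorem stepU {T X x1 x2 : ℝ} {u v : ℤ} {j e : ℕ} (hT : 1 ≤ T)
    (h1 : X ≤ T ^ e * x1) (h2 : X ≤ T ^ e * x2) (hU : x1 ≤ 2 ^ j * T ^ u)
    (hV : x2 ≤ 2 ^ j * T ^ v) : X ≤ 2 ^ (j + 1) * T ^ (min u v + (e : ℤ)) := by
  have hT0 : 0 < T := lt_of_lt_of_le one_pos hT
  have key : X ≤ 2 ^ j * T ^ (min u v + (e : ℤ)) := by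
    rw [zpow_add₀ hT0.ne', zpow_natCast]
    rcases le_total u v with h | h
    · rw [min_eq_left h]
      calc X ≤ T ^ e * x1 := h1
        _ ≤ T ^ e * (2 ^ j * T ^ u) := mul_le_mul_of_nonneg_left hU (by positivity)
        _ = _ := by ring
    · rw [min_eq_right h]
      calc X ≤ T ^ e * x2 := h2
        _ ≤ T ^ e * (2 ^ j * T ^ v) := mul_le_mul_of_nonneg_left hV (by positivity)
        _ = _ := by ring
  have h3 : 0 < T ^ (min u v + (e : ℤ)) := zpow_pos hT0 _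
  have h4 : (0 : ℝ) < 2 ^ j := by positivity
  rw [pow_succ]
  nlinarith [mul_pos h4 h3]

theorem stepV {T X x1 x2 : ℝ} {u v : ℤ} {j : ℕ} (hT : 1 ≤ T)
    (h1 : X ≤ x1 + x2) (hU : x1 ≤ 2 ^ j * T ^ u)
    (hV : x2 ≤ 2 ^ j * T ^ v) : X ≤ 2 ^ (j + 1) * T ^ (max u v) := by
  have h2 : T ^ u ≤ T ^ (max u v) := zpow_le_zpow_right₀ hT (le_max_left _ _)
  have h3 : T ^ v ≤ T ^ (max u v) := zpow_le_zpow_right₀ hT (le_max_right _ _)
  have h4 : (0 : ℝ) < 2 ^ j := by positivity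
  rw [pow_succ]
  nlinarith [mul_le_mul_of_nonneg_left h2 h4.le, mul_le_mul_of_nonneg_left h3 h4.le]

theorem levu : LEVU := by
  intro r T a z hT hz hz0
  obtain ⟨-, h1, hs, -, -⟩ := hz
  have hT' : (1 : ℝ) ≤ T := by exact_mod_cast hT
  have key : ∀ j ≤ r, z (2 * j) ≤ 2 ^ j * (T : ℝ) ^ (UV r a j).1 ∧
      z (2 * j + 1) ≤ 2 ^ j * (T : ℝ) ^ (UV r a j).2 := by
    intro j
    induction j with
    | zero =>
      intro _
      constructor
      · show z 0 ≤ 2 ^ 0 * (T : ℝ) ^ a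
        rw [hz0, pow_zero, one_mul]
      · show z 1 ≤ 2 ^ 0 * (T : ℝ) ^ (0 : ℤ)
        rw [pow_zero, one_mul, zpow_zero]
        exact h1
    | succ j ih =>
      intro hj
      obtain ⟨hU, hV⟩ := ih (by omega)
      obtain ⟨s1, s2, s3⟩ := hs j (by omega)
      constructor
      · have h := stepU hT' s1 s2 hU hV
        have e : ((2 ^ (r - 1 - j) : ℕ) : ℤ) = 2 ^ (r - 1 - j) := by push_cast; rfl
        rw [e] at h
        exact h
      · exact stepV hT' s3 hU hV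
  exact (key r le_rfl).1

theorem half_lt {x : ℝ} (hx : 0 < x) : x / 2 < x := by linarith

/-- the point -/
noncomputable def zz (r T : ℕ) (a : ℤ) (i : ℕ) : ℝ :=
  (T : ℝ) ^ (if i % 2 = 0 then (UV r a (i / 2)).1 else (UV r a (i / 2)).2) / 2 ^ (i / 2 + 1)

theorem zz_even (r T : ℕ) (a : ℤ) (j : ℕ) :
    zz r T a (2 * j) = (T : ℝ) ^ (UV r a j).1 / 2 ^ (j + 1) := by
  unfold zz
  rw [if_pos (by omega), show 2 * j / 2 = j by omega]

theorem zz_odd (r T : ℕ) (a : ℤ) (j : ℕ) :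
    zz r T a (2 * j + 1) = (T : ℝ) ^ (UV r a j).2 / 2 ^ (j + 1) := by
  unfold zz
  rw [if_neg (by omega), show (2 * j + 1) / 2 = j by omega]

theorem levl : LEVL := by
  intro r T a hT ha
  have hT' : (1 : ℝ) ≤ T := by exact_mod_cast hT
  have hT0 : (0 : ℝ) < T := lt_of_lt_of_le one_pos hT'
  have e0 : zz r T a 0 = (T : ℝ) ^ a / 2 := by
    have := zz_even r T a 0
    rw [mul_zero] at this
    rw [this, zero_add, pow_one]
    rfl
  have e1 : zz r T a 1 = 1 / 2 := by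
    have := zz_odd r T a 0
    rw [mul_zero, zero_add] at this
    rw [this, pow_one]
    show (T : ℝ) ^ (0 : ℤ) / 2 = 1 / 2
    rw [zpow_zero]
  refine ⟨zz r T a, ⟨?_, ?_, ?_, ?_, ?_⟩, e0, zz_even r T a r⟩
  · rw [e0]
    refine (half_lt (zpow_pos hT0 a)).trans_le ?_
    rw [← zpow_natCast]
    refine zpow_le_zpow_right₀ hT' ?_
    push_cast
    exact ha
  · rw [e1]
    norm_num
  · intro j hj
    have e2 : zz r T a (2 * j + 2) = (T : ℝ) ^ (min (UV r a j).1 (UV r a j).2) *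
        (T : ℝ) ^ 2 ^ (r - 1 - j) / 2 ^ (j + 2) := by
      have := zz_even r T a (j + 1)
      rw [show 2 * (j + 1) = 2 * j + 2 by ring] at this
      rw [this]
      show (T : ℝ) ^ (min (UV r a j).1 (UV r a j).2 + 2 ^ (r - 1 - j)) / 2 ^ (j + 1 + 1) = _
      have e : (2 : ℤ) ^ (r - 1 - j) = ((2 ^ (r - 1 - j) : ℕ) : ℤ) := by push_cast; rfl
      rw [zpow_add₀ hT0.ne', e, zpow_natCast]
    have e3 : zz r T a (2 * j + 3) = (T : ℝ) ^ (max (UV r a j).1 (UV r a j).2) / 2 ^ (j + 2) := by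
      have := zz_odd r T a (j + 1)
      rw [show 2 * (j + 1) + 1 = 2 * j + 3 by ring] at this
      rw [this]
      rfl
    rw [e2, e3, zz_even, zz_odd]
    generalize (UV r a j).1 = u
    generalize (UV r a j).2 = v
    have hu : 0 < (T : ℝ) ^ u := zpow_pos hT0 _
    have hv : 0 < (T : ℝ) ^ v := zpow_pos hT0 _
    have hm1 : (T : ℝ) ^ (min u v) ≤ (T : ℝ) ^ u := zpow_le_zpow_right₀ hT' (min_le_left _ _)
    have hm2 : (T : ℝ) ^ (min u v) ≤ (T : ℝ) ^ v := zpow_le_zpow_right₀ hT' (min_le_right _ _)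
    have he : 0 < (T : ℝ) ^ 2 ^ (r - 1 - j) := by positivity
    have h2 : (0 : ℝ) < 2 ^ (j + 1) := by positivity
    refine ⟨?_, ?_, ?_⟩
    · rw [pow_succ 2 (j + 1), ← div_div, ← mul_div_assoc]
      refine (half_lt (by positivity)).trans_le ?_
      rw [mul_comm]
      exact div_le_div_of_nonneg_right (mul_le_mul_of_nonneg_left hm1 he.le) h2.le
    · rw [pow_succ 2 (j + 1), ← div_div, ← mul_div_assoc]
      refine (half_lt (by positivity)).trans_le ?_
      rw [mul_comm]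
      exact div_le_div_of_nonneg_right (mul_le_mul_of_nonneg_left hm2 he.le) h2.le
    · rw [pow_succ 2 (j + 1), ← div_div, ← add_div]
      refine (half_lt (by positivity)).trans_le (div_le_div_of_nonneg_right ?_ h2.le)
      rcases le_total u v with h | h
      · rw [max_eq_right h]
        linarith
      · rw [max_eq_left h]
        linarith
  · rw [zz_even]
    positivity
  · rw [zz_odd]
    positivity

theorem bnd : BND := by
  intro r T z hT hz i hi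
  obtain ⟨h0, h1, hs, hn1, hn2⟩ := hz
  have hT2 : (2 : ℝ) ≤ T := by exact_mod_cast hT
  have hT' : (1 : ℝ) ≤ T := by linarith
  have hT0 : (0 : ℝ) < T := by linarith
  have nn : ∀ k ≤ r, 0 ≤ z (2 * (r - k)) ∧ 0 ≤ z (2 * (r - k) + 1) := by
    intro k
    induction k with
    | zero => exact fun _ => ⟨hn1, hn2⟩
    | succ k ih =>
      intro hk
      obtain ⟨a1, a2⟩ := ih (by omega)
      obtain ⟨j, hj⟩ : ∃ j, r - (k + 1) = j := ⟨_, rfl⟩
      have hj2 : 2 * (r - k) = 2 * j + 2 := by omega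
      rw [hj2] at a1
      obtain ⟨s1, s2, s3⟩ := hs j (by omega)
      have he : 0 < (T : ℝ) ^ 2 ^ (r - 1 - j) := by positivity
      rw [hj]
      exact ⟨nonneg_of_mul_nonneg_right (a1.trans s1) he,
        nonneg_of_mul_nonneg_right (a1.trans s2) he⟩
  have up : ∀ j ≤ r, ∀ E : ℕ, E + 2 ^ (r - j) = 2 ^ (r + 1) + 1 →
      z (2 * j) ≤ 2 ^ j * (T : ℝ) ^ E ∧ z (2 * j + 1) ≤ 2 ^ j * (T : ℝ) ^ E := by
    intro j
    induction j with
    | zero =>
      intro _ E hE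
      have hE2 : E = 2 ^ r + 1 := by
        rw [Nat.sub_zero, pow_succ] at hE
        omega
      subst hE2
      refine ⟨?_, ?_⟩
      · rw [pow_zero, one_mul]
        exact h0
      · rw [pow_zero, one_mul]
        exact h1.trans (one_le_pow₀ hT')
    | succ j ih =>
      intro hj E hE
      obtain ⟨s1, s2, s3⟩ := hs j (by omega)
      have e1 : r - (j + 1) = r - 1 - j := by omega
      have e2 : r - j = r - 1 - j + 1 := by omega
      rw [e1] at hE
      have e3 : 2 ^ (r - 1 - j + 1) ≤ 2 ^ (r + 1) := Nat.pow_le_pow_right (by norm_num) (by omega)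
      have e4 : 2 ^ (r - 1 - j + 1) = 2 ^ (r - 1 - j) * 2 := pow_succ _ _
      obtain ⟨E', hE'⟩ : ∃ E', E = E' + 2 ^ (r - 1 - j) := ⟨E - 2 ^ (r - 1 - j), by omega⟩
      obtain ⟨b1, b2⟩ := ih (by omega) E' (by rw [e2]; omega)
      have he : 0 < (T : ℝ) ^ 2 ^ (r - 1 - j) := by positivity
      have he1 : 1 ≤ (T : ℝ) ^ 2 ^ (r - 1 - j) := one_le_pow₀ hT'
      have hE0 : 0 < (T : ℝ) ^ E' := by positivity
      have h2 : (0 : ℝ) < 2 ^ j := by positivity
      have hb : 0 < 2 ^ j * (T : ℝ) ^ E' := mul_pos h2 hE0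
      rw [hE', pow_add (T : ℝ), pow_succ (2 : ℝ)]
      refine ⟨?_, ?_⟩
      · show z (2 * j + 2) ≤ _
        calc z (2 * j + 2) ≤ (T : ℝ) ^ 2 ^ (r - 1 - j) * z (2 * j) := s1
          _ ≤ (T : ℝ) ^ 2 ^ (r - 1 - j) * (2 ^ j * (T : ℝ) ^ E') :=
            mul_le_mul_of_nonneg_left b1 he.le
          _ ≤ (T : ℝ) ^ 2 ^ (r - 1 - j) * (2 ^ j * (T : ℝ) ^ E') * 2 := by
            nlinarith [mul_pos he hb]
          _ = _ := by ring
      · show z (2 * j + 3) ≤ _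
        calc z (2 * j + 3) ≤ z (2 * j) + z (2 * j + 1) := s3
          _ ≤ 2 * (2 ^ j * (T : ℝ) ^ E') := by linarith
          _ ≤ 2 * (2 ^ j * (T : ℝ) ^ E') * (T : ℝ) ^ 2 ^ (r - 1 - j) :=
            le_mul_of_one_le_right (by positivity) he1
          _ = _ := by ring
  obtain ⟨j, hj, hij⟩ : ∃ j, j ≤ r ∧ (i = 2 * j ∨ i = 2 * j + 1) := ⟨i / 2, by omega, by omega⟩
  have hn := nn (r - j) (by omega)
  rw [show r - (r - j) = j by omega] at hn
  have e1 : 1 ≤ 2 ^ (r - j) := Nat.one_le_two_pow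
  have e3 : 2 ^ (r - j) ≤ 2 ^ (r + 1) := Nat.pow_le_pow_right (by norm_num) (by omega)
  obtain ⟨E, hE⟩ : ∃ E, E + 2 ^ (r - j) = 2 ^ (r + 1) + 1 :=
    ⟨2 ^ (r + 1) + 1 - 2 ^ (r - j), by omega⟩
  have hu := up j hj E hE
  have hEle : E ≤ 2 ^ (r + 1) := by omega
  have hfin : 2 ^ j * (T : ℝ) ^ E ≤ 2 ^ r * (T : ℝ) ^ 2 ^ (r + 1) := by
    gcongr
    norm_num
  rcases hij with rfl | rfl
  · exact ⟨hn.1, hu.1.trans hfin⟩
  · exact ⟨hn.2, hu.2.trans hfin⟩

end Pool.Agent.W338.IP
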