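import Pool.Agent.W482.IP.Stm2

/-!
Project IP (owner helper482), part IP-UPC.
-/

set_option autoImplicit false

namespace Pool.Agent.W338.IP

open Pool.Agent.W482.IP Set

/-- affine on an interval -/
def Aff (f : ℝ → ℝ) (a b : ℝ) : Prop := ∃ c d : ℝ, ∀ x ∈ Icc a b, f x = c + d * x

theorem Aff.mono {f : ℝ → ℝ} {a b a' b' : ℝ} (h : Aff f a b) (h1 : a ≤ a') (h2 : b' ≤ b) :
    Aff f a' b' := by
  obtain ⟨c, d, h⟩ := h
  exact ⟨c, d, fun x hx => h x ⟨h1.trans hx.1, hx.2.trans h2⟩⟩

theorem cross0 {f g : ℝ → ℝ} {u v c d c' d' : ℝ} (huv : u ≤ v)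
    (hf : ∀ x ∈ Icc u v, f x = c + d * x) (hg : ∀ x ∈ Icc u v, g x = c' + d' * x)
    (h0 : c + d * u ≤ c' + d' * u) :
    ∃ m, u ≤ m ∧ m ≤ v ∧ Aff (fun x => min (f x) (g x)) u m ∧
      Aff (fun x => min (f x) (g x)) m v := by
  rcases le_or_gt (c + d * v) (c' + d' * v) with h1 | h1
  · have key : ∀ x ∈ Icc u v, min (f x) (g x) = c + d * x := by
      intro x hx
      rw [hf x hx, hg x hx]
      refine min_eq_left ?_
      rcases le_total d d' with h | h
      · nlinarith [mul_nonneg (sub_nonneg.2 h) (sub_nonneg.2 hx.1)]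
      · nlinarith [mul_nonneg (sub_nonneg.2 h) (sub_nonneg.2 hx.2)]
    exact ⟨v, huv, le_rfl, ⟨c, d, key⟩, ⟨c, d, fun x hx => key x ⟨huv.trans hx.1, hx.2⟩⟩⟩
  · have hd : 0 < d - d' := by
      by_contra hd
      push Not at hd
      nlinarith [mul_nonneg (neg_nonneg.2 hd) (sub_nonneg.2 huv)]
    have hz : (d - d') * ((c' - c) / (d - d')) = c' - c := mul_div_cancel₀ _ hd.ne'
    set z := (c' - c) / (d - d') with hzdef
    have hu : u ≤ z := by
      by_contra h
      push Not at h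
      nlinarith [mul_pos hd (sub_pos.2 h)]
    have hv : z ≤ v := by
      by_contra h
      push Not at h
      nlinarith [mul_pos hd (sub_pos.2 h)]
    refine ⟨z, hu, hv, ⟨c, d, fun x hx => ?_⟩, ⟨c', d', fun x hx => ?_⟩⟩
    · have hx' : x ∈ Icc u v := ⟨hx.1, hx.2.trans hv⟩
      show min (f x) (g x) = _
      rw [hf x hx', hg x hx']
      refine min_eq_left ?_
      nlinarith [mul_nonneg hd.le (sub_nonneg.2 hx.2)]
    · have hx' : x ∈ Icc u v := ⟨hu.trans hx.1, hx.2⟩
      show min (f x) (g x) = _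
      rw [hf x hx', hg x hx']
      refine min_eq_right ?_
      nlinarith [mul_nonneg hd.le (sub_nonneg.2 hx.1)]

theorem cross {f g : ℝ → ℝ} {u v : ℝ} (huv : u ≤ v) (hf : Aff f u v) (hg : Aff g u v) :
    ∃ m, u ≤ m ∧ m ≤ v ∧ Aff (fun x => min (f x) (g x)) u m ∧
      Aff (fun x => min (f x) (g x)) m v := by
  obtain ⟨c, d, hf⟩ := hf
  obtain ⟨c', d', hg⟩ := hg
  rcases le_total (c + d * u) (c' + d' * u) with h | h
  · exact cross0 huv hf hg h
  · obtain ⟨m, h1, h2, h3, h4⟩ := cross0 huv hg hf h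
    refine ⟨m, h1, h2, ?_, ?_⟩
    · simpa only [min_comm] using h3
    · simpa only [min_comm] using h4

theorem Aff.const_mul {f : ℝ → ℝ} {a b : ℝ} (k : ℝ) (h : Aff f a b) :
    Aff (fun x => k * f x) a b := by
  obtain ⟨c, d, h⟩ := h
  refine ⟨k * c, k * d, fun x hx => ?_⟩
  show k * f x = _
  rw [h x hx]
  ring

theorem Aff.add {f g : ℝ → ℝ} {a b : ℝ} (h : Aff f a b) (h' : Aff g a b) :
    Aff (fun x => f x + g x) a b := by
  obtain ⟨c, d, h⟩ := h
  obtain ⟨c', d', h'⟩ := h'
  refine ⟨c + c', d + d', fun x hx => ?_⟩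
  show f x + g x = _
  rw [h x hx, h' x hx]
  ring

/-- the breakpoints -/
theorem brk (r T : ℕ) {α β : ℝ} (hαβ : α ≤ β) (J : ℕ) : ∃ t : ℕ → ℝ, t 0 = α ∧ t (2 ^ J) = β ∧
    (∀ k < 2 ^ J, t k ≤ t (k + 1)) ∧ ∀ j ≤ J, ∀ k < 2 ^ J,
      Aff (fun lam => (hat r T lam j).1) (t k) (t (k + 1)) ∧
      Aff (fun lam => (hat r T lam j).2) (t k) (t (k + 1)) := by
  induction J with
  | zero =>
    refine ⟨fun n => if n = 0 then α else β, if_pos rfl, if_neg (by norm_num), ?_, ?_⟩
    · intro k hk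
      have : k = 0 := by simpa using hk
      subst this
      simpa using hαβ
    · intro j hj k _
      have : j = 0 := by omega
      subst this
      exact ⟨⟨0, 1, fun x _ => by show x = _; ring⟩, ⟨1, 0, fun x _ => by show (1 : ℝ) = _; ring⟩⟩
  | succ J ih =>
    obtain ⟨t, h0, hN, hm, ha⟩ := ih
    have hex : ∀ k, ∃ m, k < 2 ^ J → t k ≤ m ∧ m ≤ t (k + 1) ∧
        Aff (fun x => min (hat r T x J).1 (hat r T x J).2) (t k) m ∧
        Aff (fun x => min (hat r T x J).1 (hat r T x J).2) m (t (k + 1)) := by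
      intro k
      by_cases hk : k < 2 ^ J
      · obtain ⟨m, h⟩ := cross (hm k hk) (ha J le_rfl k hk).1 (ha J le_rfl k hk).2
        exact ⟨m, fun _ => h⟩
      · exact ⟨0, fun h => absurd h hk⟩
    choose m hmid using hex
    have e2 : 2 ^ (J + 1) = 2 * 2 ^ J := by rw [pow_succ]; ring
    let t' : ℕ → ℝ := fun n => if n % 2 = 0 then t (n / 2) else m (n / 2)
    have te : ∀ k, t' (2 * k) = t k := fun k => by
      show (if 2 * k % 2 = 0 then t (2 * k / 2) else m (2 * k / 2)) = _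
      rw [if_pos (by omega), show 2 * k / 2 = k by omega]
    have tod : ∀ k, t' (2 * k + 1) = m k := fun k => by
      show (if (2 * k + 1) % 2 = 0 then t ((2 * k + 1) / 2) else m ((2 * k + 1) / 2)) = _
      rw [if_neg (by omega), show (2 * k + 1) / 2 = k by omega]
    have te' : ∀ k, t' (2 * k + 1 + 1) = t (k + 1) := fun k => te (k + 1)
    refine ⟨t', ?_, ?_, ?_, ?_⟩
    · exact (te 0).trans h0
    · rw [e2, te, hN]
    · intro k' hk'
      obtain ⟨k, hk | hk⟩ : ∃ k, k' = 2 * k ∨ k' = 2 * k + 1 := ⟨k' / 2, by omega⟩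
      · subst hk
        rw [te, tod]
        exact (hmid k (by omega)).1
      · subst hk
        rw [tod, te']
        exact (hmid k (by omega)).2.1
    · intro j hj k' hk'
      obtain ⟨k, hk⟩ : ∃ k, k' = 2 * k ∨ k' = 2 * k + 1 := ⟨k' / 2, by omega⟩
      have hkJ : k < 2 ^ J := by omega
      obtain ⟨m1, m2, m3, m4⟩ := hmid k hkJ
      have hsub : (t k ≤ t' k' ∧ t' (k' + 1) ≤ t (k + 1)) ∧
          Aff (fun x => min (hat r T x J).1 (hat r T x J).2) (t' k') (t' (k' + 1)) := by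
        rcases hk with hk | hk
        · subst hk
          rw [te, tod]
          exact ⟨⟨le_rfl, m2⟩, m3⟩
        · subst hk
          rw [tod, te']
          exact ⟨⟨m1, le_rfl⟩, m4⟩
      rcases Nat.lt_or_ge j (J + 1) with h | h
      · obtain ⟨a1, a2⟩ := ha j (by omega) k hkJ
        exact ⟨a1.mono hsub.1.1 hsub.1.2, a2.mono hsub.1.1 hsub.1.2⟩
      · have : j = J + 1 := by omega
        subst this
        obtain ⟨a1, a2⟩ := ha J le_rfl k hkJ
        exact ⟨hsub.2.const_mul _, (a1.mono hsub.1.1 hsub.1.2).add (a2.mono hsub.1.1 hsub.1.2)⟩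

/-- piecewise linear functions -/
theorem pl (u : ℕ → ℝ) (N : ℕ) : ∃ g : ℝ → ℝ, Continuous g ∧
    (∀ k : ℕ, k < N → ∀ s ∈ Icc (k : ℝ) (k + 1), g s = u k + (s - k) * (u (k + 1) - u k)) ∧
    ∀ s : ℝ, (N : ℝ) ≤ s → g s = u N := by
  induction N with
  | zero => exact ⟨fun _ => u 0, continuous_const, fun k hk => absurd hk (by omega), fun _ _ => rfl⟩
  | succ N ih =>
    obtain ⟨g, h1, h2, h3⟩ := ih
    refine ⟨fun s => g s + (u (N + 1) - u N) * max 0 (min 1 (s - N)), by fun_prop, ?_, ?_⟩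
    · intro k hk s hs
      show g s + (u (N + 1) - u N) * max 0 (min 1 (s - N)) = _
      rcases Nat.lt_or_ge k N with h | h
      · have h4 : ((k + 1 : ℕ) : ℝ) ≤ N := by exact_mod_cast h
        push_cast at h4
        have h5 : s - N ≤ 0 := by linarith [hs.2]
        rw [h2 k h s hs, max_eq_left ((min_le_right _ _).trans h5)]
        ring
      · have : k = N := by omega
        subst this
        have h5 : s - k ≤ 1 := by linarith [hs.2]
        have h6 : 0 ≤ s - k := by linarith [hs.1]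
        rw [h3 s hs.1, min_eq_right h5, max_eq_right h6]
        ring
    · intro s hs
      push_cast at hs
      show g s + (u (N + 1) - u N) * max 0 (min 1 (s - N)) = _
      have h5 : 1 ≤ s - N := by linarith
      rw [h3 s (by linarith), min_eq_left h5, max_eq_right zero_le_one]
      ring

theorem hat_cont (r T j : ℕ) : Continuous (fun lam => (hat r T lam j).1) ∧
    Continuous (fun lam => (hat r T lam j).2) := by
  induction j with
  | zero => exact ⟨continuous_id, continuous_const⟩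
  | succ j ih => exact ⟨continuous_const.mul (ih.1.min ih.2), ih.1.add ih.2⟩

theorem upc : UPC := by
  intro r T α β hαβ
  obtain ⟨t, t0, tN, tm, ta⟩ := brk r T hαβ r
  have hmono : ∀ n, n ≤ 2 ^ r → α ≤ t n ∧ t n ≤ β := by
    intro n hn
    constructor
    · induction n with
      | zero => exact t0.ge
      | succ n ih => exact (ih (by omega)).trans (tm n (by omega))
    · have : ∀ d, ∀ n, n + d = 2 ^ r → t n ≤ β := by
        intro d
        induction d with
        | zero =>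
          intro n hn
          rw [add_zero] at hn
          rw [hn, tN]
        | succ d ih =>
          intro n hn
          exact (tm n (by omega)).trans (ih (n + 1) (by omega))
      exact this (2 ^ r - n) n (by omega)
  have hpos : 0 < 2 ^ r := by positivity
  obtain ⟨g, g1, g2, g3⟩ := pl (fun n => t (2 ^ r - n)) (2 ^ r)
  have hseg : ∀ k : ℕ, k < 2 ^ r → ∀ s ∈ Icc (k : ℝ) (k + 1),
      g s ∈ Icc (t (2 ^ r - k - 1)) (t (2 ^ r - k - 1 + 1)) := by
    intro k hk s hs
    have h1 := g2 k hk s hs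
    have e1 : 2 ^ r - (k + 1) = 2 ^ r - k - 1 := by omega
    have e2 : 2 ^ r - k = 2 ^ r - k - 1 + 1 := by omega
    rw [e1] at h1
    have h2 := tm (2 ^ r - k - 1) (by omega)
    rw [← e2] at h2 ⊢
    have hs1 : 0 ≤ s - k := by linarith [hs.1]
    have hs2 : s - k ≤ 1 := by linarith [hs.2]
    rw [h1]
    constructor
    · nlinarith
    · nlinarith
  have hcast : ((2 ^ r : ℕ) : ℝ) = 2 ^ r := by push_cast; rfl
  refine ⟨g, g1.continuousOn, ?_, ?_, ?_, ?_, ?_⟩
  · have := g2 0 hpos 0 ⟨by simp, by simp⟩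
    rw [this]
    simp only [Nat.cast_zero, Nat.sub_zero, sub_zero, zero_mul, add_zero]
    exact tN
  · have := g3 (2 ^ r) hcast.le
    rw [this]
    simp only [Nat.sub_self]
    exact t0
  · intro s hs
    rcases lt_or_ge s (2 ^ r) with h | h
    · have hk : ⌊s⌋₊ < 2 ^ r := by
        rw [Nat.floor_lt hs.1, hcast]
        exact h
      have hin := hseg ⌊s⌋₊ hk s ⟨Nat.floor_le hs.1, (Nat.lt_floor_add_one s).le⟩
      exact ⟨(hmono _ (by omega)).1.trans hin.1, hin.2.trans (hmono _ (by omega)).2⟩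
    · have := g3 s (hcast.le.trans h)
      rw [this]
      simp only [Nat.sub_self]
      exact hmono 0 (by omega)
  · intro i
    unfold Y
    split_ifs
    · exact (hat_cont r T (i / 2)).1.div_const _
    · exact (hat_cont r T (i / 2)).2.div_const _
  · intro k hk i hi
    have hA := ta (i / 2) (by omega) (2 ^ r - k - 1) (by omega)
    have hlin : ∃ c d : ℝ, ∀ s ∈ Icc (k : ℝ) (k + 1), g s = c + d * s :=
      ⟨t (2 ^ r - k) - k * (t (2 ^ r - (k + 1)) - t (2 ^ r - k)),
        t (2 ^ r - (k + 1)) - t (2 ^ r - k), fun s hs => by rw [g2 k hk s hs]; ring⟩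
    obtain ⟨c, d, hg⟩ := hlin
    unfold Y
    split_ifs
    · obtain ⟨c', d', h⟩ := hA.1
      refine ⟨(c' + d' * c) / 2 ^ (i / 2 + 1), d' * d / 2 ^ (i / 2 + 1), fun s hs => ?_⟩
      have h5 := h (g s) (hseg k hk s hs)
      simp only at h5
      rw [h5, hg s hs]
      ring
    · obtain ⟨c', d', h⟩ := hA.2
      refine ⟨(c' + d' * c) / 2 ^ (i / 2 + 1), d' * d / 2 ^ (i / 2 + 1), fun s hs => ?_⟩
      have h5 := h (g s) (hseg k hk s hs)
      simp only at h5
      rw [h5, hg s hs]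
      ring

end Pool.Agent.W338.IP
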